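import Mathlib
import Pool.Agent.H443.NF.Main
import Pool.Graph.R_seed8.H297R2.ExpIndep

/-!
# Gel'fond's conjecture in bounded degree for all the conjugates of almost all algebraic integers

Let `K_1, ..., K_k` be number fields and let `b_j` be a basis of `K_j` over `ℚ` (for example an integral
basis). For vectors `x_j` of integers put `β_j = ∑ x_ji b_ji ∈ K_j`. We show that for almost all
`(x_1, ..., x_k)` the numbers `e ^ α_1, ..., e ^ α_l` together with the `[K_1 : ℚ] + ... + [K_k : ℚ]`
logarithms of **all the conjugates** `σ(β_j)` of the numbers `β_j` satisfy no nonzero polynomial relation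
of total degree at most `D` with algebraic coefficients. Here `α_1, ..., α_l` are algebraic numbers which
are linearly independent over `ℚ`, the determinations of the logarithms are arbitrary with imaginary
parts at most `C`, and the number of exceptional `(x_1, ..., x_k)` with `|x_ji| ≤ N_j` is at most
`ε ∏ (2 N_j + 1) ^ [K_j : ℚ]` if all the `N_j` are at least `N₀`, where `N₀` depends neither on
`α_1, ..., α_l` nor on the ratios of the `N_j`. There is no bound for the heights and the degrees of the
coefficients. The case `K_1 = ... = K_k = ℚ` is `AlmostAllBeta`; `NumberFieldTuples` treats one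
conjugate and coefficients in fields of bounded degree, `AllConjugates` coefficients of bounded height.

For example, for almost all pairs of integers `(x, y)` the numbers `e`, `e ^ √2`, `log |x + y √2|`,
`log |x - y √2|` satisfy no polynomial relation of degree `≤ D` over the field of algebraic numbers.

The theorem on the logarithms is `Pool.Agent.H443.NF.main` (see
`MP_60829e_nt.ConjugatesOfAlmostAllIntegers`). It holds relative to arbitrary numbers `t_1, ..., t_l`
without relations of degree `≤ D`; this is applied with `t_i = e ^ α_i` by the theorem of Lindemann and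
Weierstrass. Since it is not known whether `π` is algebraically independent of these numbers, the
determinations have to be controlled; this is done by the theorem of Hales and Jewett.
-/

set_option autoImplicit false

open NumberField

namespace Pool.Agent.Results.MP_c82530_nt.ConjugatesOfAlmostAllIntegers

open Classical in
/-- **Main result.** (`z.2` runs through the embeddings of the field `K z.1` into `ℂ`.) -/
theorem result (k l D : ℕ) (K : Fin k → Type) [∀ j, Field (K j)] [∀ j, NumberField (K j)]
    (ι : Fin k → Type) [∀ j, Fintype (ι j)] (b : ∀ j, Module.Basis (ι j) ℚ (K j))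
    (C ε : ℝ) (hε : 0 < ε) :
    ∃ N₀ : ℕ, ∀ N : Fin k → ℕ, (∀ j, N₀ ≤ N j) →
      ∀ α : Fin l → ℂ, (∀ i, IsAlgebraic ℚ (α i)) → LinearIndependent ℚ α →
      (((Fintype.piFinset fun j => Fintype.piFinset fun _ : ι j =>
          Finset.Icc (-(N j : ℤ)) (N j)).filter fun x =>
        (∀ j, x j ≠ 0) ∧ ∃ L : (Σ j : Fin k, (K j →+* ℂ)) → ℂ,
          (∀ z, Complex.exp (L z) = z.2 (∑ i, (x z.1 i : K z.1) * b z.1 i) ∧ |(L z).im| ≤ C) ∧
          ∃ P : MvPolynomial (Fin l ⊕ (Σ j : Fin k, (K j →+* ℂ))) (algebraicClosure ℚ ℂ),
            P ≠ 0 ∧ P.totalDegree ≤ D ∧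
            MvPolynomial.aeval (Sum.elim (fun i => Complex.exp (α i)) L) P = 0).card : ℝ) ≤
      ε * ∏ j, (2 * (N j : ℝ) + 1) ^ Module.finrank ℚ (K j) := by
  obtain ⟨N₀, hN₀⟩ := Pool.Agent.H443.NF.main k l D K ι b C ε hε
  refine ⟨N₀, fun N hN α halg hα => ?_⟩
  refine le_trans (Nat.cast_le.2 (Finset.card_le_card ?_))
    (hN₀ N hN (fun i => Complex.exp (α i)) (Pool.Agent.H297R2.exp_noRel D α halg hα))
  intro x hx
  obtain ⟨h1, h2, L, hL, P, hP0, hPD, hP⟩ := Pool.Agent.H443.NF.mem_filt.1 hx
  exact Pool.Agent.H443.NF.mem_filt.2 ⟨h1, h2, L, fun z => (hL z).1, Or.inr fun z => (hL z).2,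
    fun hN => hP0 (hN P hPD hP)⟩

end Pool.Agent.Results.MP_c82530_nt.ConjugatesOfAlmostAllIntegers
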