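import Pool.Agent.H445.GT.F

/-!
# MP_c82530_nt: Gel'fond's conjecture and the dimension of sets of exponents and logarithms

Let `T(a, b; r, k)` be the set of the `x ∈ ℂ^a`, `y ∈ ℂ^b` such that the `a + b` numbers `x_i`, `y_j` are linearly
independent over `ℚ`, the transcendence degree of `ℚ(x, e^y)` is at most `r` and the transcendence degree of
`ℚ(x, y, e^x, e^y)` is at most `k`. For `r = 0` these are algebraic numbers `x` and logarithms `y` of algebraic
numbers, and Gel'fond's conjecture says that `T(a, b; 0, a + b - 1)` is empty. We prove that the conjecture is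
equivalent to statements about the size of `T(a, b; r, k)` for any given `r ≥ 1`. More generally we allow parameters:
`P` is a tuple of algebraically independent numbers and the second condition becomes
`trdeg ℚ(P, x, y, e^x, e^y) ≤ m + k`, `m` the number of parameters.
-/

set_option autoImplicit false

open Set MeasureTheory
open scoped ENNReal

noncomputable section

namespace Pool.Agent.Results.MP_c82530_nt.FieldOfDefinition

/-- The set `T(P; a, b; r, k)` of the `w = (x, y) ∈ ℂ^(a+b)`, linearly independent over `ℚ`, with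
`trdeg ℚ(x, e^y) ≤ r` and `trdeg ℚ(P, w, e^w) ≤ m + k`. -/
def Tup {m : ℕ} (P : Fin m → ℂ) (a b r k : ℕ) : Set (Fin (a + b) → ℂ) :=
  {w | LinearIndependent ℚ w ∧
    Algebra.trdeg ℚ (IntermediateField.adjoin ℚ ((range fun i => w (Fin.castAdd b i)) ∪
      range fun j => Complex.exp (w (Fin.natAdd a j)))) ≤ r ∧
    Algebra.trdeg ℚ (IntermediateField.adjoin ℚ (range P ∪ (range w ∪
      range fun i => Complex.exp (w i)))) ≤ ((m + k : ℕ) : Cardinal)}

/-- The largest `d ≤ r`, `2 d ≤ k` such that `T(P; a - i, b - j; r - d, k - 2 d)` is not empty for some `i ≤ a`,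
`j ≤ b`, `i + j = d` (zero if there is none). -/
def level {m : ℕ} (P : Fin m → ℂ) (a b r k : ℕ) : ℕ :=
  sSup {d | d ≤ r ∧ 2 * d ≤ k ∧ ∃ i j, i ≤ a ∧ j ≤ b ∧ i + j = d ∧
    (Tup P (a - i) (b - j) (r - d) (k - 2 * d)).Nonempty}

/-- Gel'fond's statement with parameters `P` and error `c`: for `a` independent algebraic numbers `α` and `b`
independent logarithms `l` of algebraic numbers, `trdeg ℚ(P, e^α, l) ≥ m + a + b - c`. -/
def Gelfond {m : ℕ} (P : Fin m → ℂ) (c a b : ℕ) : Prop :=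
  ∀ (α : Fin a → ℂ) (l : Fin b → ℂ), (∀ i, IsAlgebraic ℚ (α i)) → LinearIndependent ℚ α →
    (∀ j, IsAlgebraic ℚ (Complex.exp (l j))) → LinearIndependent ℚ l →
    ((m + a + b : ℕ) : Cardinal) ≤ Algebra.trdeg ℚ (IntermediateField.adjoin ℚ
      (range P ∪ ((range fun i => Complex.exp (α i)) ∪ range l))) + c

/-- Gel'fond's conjecture, as in the problem. -/
def GelfondConjecture : Prop :=
  ∀ n : ℕ, 1 ≤ n → ∀ α l : Fin n → ℂ, (∀ i, IsAlgebraic ℚ (α i)) → (∀ i, IsAlgebraic ℚ (Complex.exp (l i))) →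
    LinearIndependent ℚ α → LinearIndependent ℚ l →
    AlgebraicIndependent (integralClosure ℚ ℂ) (Sum.elim (fun i : Fin n => Complex.exp (α i)) l)

open Pool.Agent.H445 Pool.Agent.Y685

/-- the field of the parameters -/
abbrev CP {m : ℕ} (P : Fin m → ℂ) : IntermediateField ℚ ℂ := clo (⊥ : IntermediateField ℚ ℂ) (range P)

variable {m : ℕ} {P : Fin m → ℂ} {a b r k c : ℕ}

theorem Tup_eq (hP : AlgebraicIndependent ℚ P) (a b r k : ℕ) : Tup P a b r k = VG (CP P) a b r k := by
  ext w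
  exact (mem_VG_iff hP).symm

theorem level_eq (hP : AlgebraicIndependent ℚ P) (a b r k : ℕ) :
    level P a b r k = sSup (LevG (CP P) a b r k) := by
  unfold level LevG
  simp only [Tup_eq hP]

theorem gel_iff (hP : AlgebraicIndependent ℚ P) : Gelfond P c a b ↔ GE (CP P) c a b := (GE_par hP).symm

theorem formula (hP : AlgebraicIndependent ℚ P) (a b r k : ℕ) :
    dimH (Tup P a b r k) = ((2 * level P a b r k : ℕ) : ℝ≥0∞) ∧
    ((Tup P a b r k).Nonempty → 0 < μH[((2 * level P a b r k : ℕ) : ℝ)] (Tup P a b r k)) ∧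
    (∃ A : ℕ → Set (Fin (a + b) → ℂ), Tup P a b r k ⊆ ⋃ i, A i ∧
      ∀ i, μH[((2 * level P a b r k : ℕ) : ℝ)] (A i) < ⊤) ∧
    ((Tup P a b r k).Countable ↔ level P a b r k = 0) := by
  have hc : (CP P : Set ℂ).Countable := countable_cloG (countable_range P)
  rw [level_eq hP, Tup_eq hP]
  obtain ⟨h1, h2⟩ := dimG (a := a) (b := b) (r := r) (k := k) hc
  refine ⟨h1, posG, h2, ?_⟩
  rw [countableG hc]
  constructor
  · intro h
    by_contra h0
    have hne : (LevG (CP P) a b r k).Nonempty := by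
      by_contra h3
      rw [Set.not_nonempty_iff_eq_empty] at h3
      rw [h3, csSup_empty] at h0
      exact h0 rfl
    exact h (LevG_down (Nat.one_le_iff_ne_zero.2 h0) (Nat.sSup_mem hne LevG_bdd))
  · intro h h3
    have := le_csSup LevG_bdd h3
    omega

theorem threshold (hP : AlgebraicIndependent ℚ P) (hr : 1 ≤ r) (hk : k + c + 1 = a + b + r) :
    (dimH (Tup P a b r k) ≤ ((2 * (r - 1) : ℕ) : ℝ≥0∞)) ↔
      ∀ i j, i ≤ a → j ≤ b → i + j = r → Gelfond P c (a - i) (b - j) := by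
  rw [(formula hP a b r k).1]
  have h1 : (((2 * level P a b r k : ℕ) : ℝ≥0∞) ≤ ((2 * (r - 1) : ℕ) : ℝ≥0∞)) ↔ level P a b r k ≤ r - 1 := by
    rw [Nat.cast_le]
    omega
  rw [h1, level_eq hP, sSup_lt_iff hr, top_level_iff hk]
  simp only [gel_iff hP]

theorem exact_dim (hP : AlgebraicIndependent ℚ P) (hr : 1 ≤ r) (hab : r ≤ a + b) (hk : k + 1 = a + b + r) :
    ((∀ i j, i ≤ a → j ≤ b → i + j = r → Gelfond P 0 (a - i) (b - j)) →
      dimH (Tup P a b r k) = ((2 * (r - 1) : ℕ) : ℝ≥0∞)) ∧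
    (¬ (∀ i j, i ≤ a → j ≤ b → i + j = r → Gelfond P 0 (a - i) (b - j)) →
      dimH (Tup P a b r k) = ((2 * r : ℕ) : ℝ≥0∞)) := by
  have h0 : (∀ i j, i ≤ a → j ≤ b → i + j = r → Gelfond P 0 (a - i) (b - j)) ↔
      r ∉ LevG (CP P) a b r k := by
    rw [top_level_iff (c := 0) (by omega)]
    simp only [gel_iff hP]
  have h1 : r - 1 ≤ sSup (LevG (CP P) a b r k) := le_csSup LevG_bdd (pred_mem hr hab hk)
  have h2 : sSup (LevG (CP P) a b r k) ≤ r := csSup_le ⟨_, pred_mem hr hab hk⟩ fun d hd => hd.1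
  constructor
  · intro h
    rw [h0, ← sSup_lt_iff hr] at h
    rw [(formula hP a b r k).1, level_eq hP]
    congr 2
    omega
  · intro h
    rw [h0, ← sSup_lt_iff hr] at h
    rw [(formula hP a b r k).1, level_eq hP]
    congr 2
    omega

theorem noPar : AlgebraicIndependent ℚ (![] : Fin 0 → ℂ) :=
  (algebraicIndependent_empty_type_iff (R := ℚ) (A := ℂ)).2 (algebraMap ℚ ℂ).injective

theorem gel_bot : Gelfond (![] : Fin 0 → ℂ) c a b ↔ GE (⊥ : IntermediateField ℚ ℂ) c a b := by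
  unfold Gelfond GE
  refine forall_congr' fun α => forall_congr' fun l => forall_congr' fun _ => forall_congr' fun _ =>
    forall_congr' fun _ => forall_congr' fun _ => ?_
  rw [le_trdeg_iff, zero_add, range_eq_empty, empty_union]

/-- no exponentials besides the parameters -/
theorem gel_fixed : Gelfond P 0 0 b ↔ ∀ l : Fin b → ℂ, (∀ j, IsAlgebraic ℚ (Complex.exp (l j))) →
    LinearIndependent ℚ l → AlgebraicIndependent (integralClosure ℚ ℂ) (Sum.elim P l) := by
  have key : ∀ (α : Fin 0 → ℂ) (l : Fin b → ℂ), (((m + 0 + b : ℕ) : Cardinal) ≤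
      Algebra.trdeg ℚ (IntermediateField.adjoin ℚ
        (range P ∪ ((range fun i => Complex.exp (α i)) ∪ range l))) + (0 : ℕ)) ↔
      AlgebraicIndependent (integralClosure ℚ ℂ) (Sum.elim P l) := by
    intro α l
    have h1 := le_trdeg_iff (S := range P ∪ range l) (N := m + b) (c := 0)
    simp only [Nat.cast_zero, add_zero] at h1
    have h2 : (range fun i => Complex.exp (α i)) = ∅ := range_eq_empty _
    rw [le_trdeg_iff, AI_par, h1, h2, empty_union]
    simp
  constructor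
  · intro h l h1 h2
    exact (key Fin.elim0 l).1 (h Fin.elim0 l (fun i => i.elim0) linearIndependent_empty_type h1 h2)
  · intro h α l _ _ h1 h2
    exact (key α l).2 (h l h1 h2)

theorem conj_iff : GelfondConjecture ↔ ∀ a b, Gelfond (![] : Fin 0 → ℂ) 0 a b := by
  have key : ∀ n (α l : Fin n → ℂ), AlgebraicIndependent (integralClosure ℚ ℂ)
      (Sum.elim (fun i : Fin n => Complex.exp (α i)) l) ↔
      ((n + n : ℕ) : ℕ∞) ≤ (Pool.Agent.TH813.Rel.MK (⊥ : IntermediateField ℚ ℂ)).eRk (EX α ∪ range l) := by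
    intro n α l
    rw [← Algebra.IsIntegral.algebraicIndependent_iff ℚ, elim_iff, MJ.FR_bot]
  constructor
  · intro h a b
    rw [gel_bot]
    have h1 : GE (⊥ : IntermediateField ℚ ℂ) 0 (a + b + 1) (a + b + 1) := by
      intro α l h1 h2 h3 h4
      rw [Nat.cast_zero, add_zero]
      exact (key _ α l).1 (h (a + b + 1) (by omega) α l h1 h3 h2 h4)
    exact h1.down (by omega) (by omega)
  · intro h n _ α l h1 h2 h3 h4
    have h5 := gel_bot.1 (h n n) α l h1 h3 h2 h4
    rw [Nat.cast_zero, add_zero] at h5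
    exact (key _ α l).2 h5

/-- the conjecture and the dimensions -/
theorem conj_dim (hr : 1 ≤ r) :
    GelfondConjecture ↔ ∀ n, dimH (Tup (![] : Fin 0 → ℂ) n n r (2 * n + r - 1)) ≤ ((2 * (r - 1) : ℕ) : ℝ≥0∞) := by
  rw [conj_iff]
  constructor
  · intro h n
    exact (threshold noPar hr (c := 0) (by omega)).2 fun i j _ _ _ => h _ _
  · intro h a b
    have h1 := (threshold noPar hr (c := 0) (a := a + b + r) (b := a + b + r)
      (k := 2 * (a + b + r) + r - 1) (by omega)).1 (h (a + b + r)) r 0 (by omega) (by omega) (by omega)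
    rw [gel_bot] at h1 ⊢
    exact h1.down (by omega) (by omega)

theorem GE_min (h : 1 ≤ a + b) : GE (⊥ : IntermediateField ℚ ℂ) (a + b - 1) a b := by
  rcases Nat.eq_zero_or_pos a with rfl | ha
  · have h1 : GE (⊥ : IntermediateField ℚ ℂ) (0 + b - 1) 0 b := by
      intro α l h1 h2 h3 h4
      have h5 : (1 : ℕ∞) ≤ (Pool.Agent.TH813.Rel.MK (⊥ : IntermediateField ℚ ℂ)).eRk (EX α ∪ range l) := by
        rw [Order.one_le_iff_ne_zero]
        intro h0
        have h6 := rk_zero_iff.1 h0.le (l ⟨0, by omega⟩) (Or.inr ⟨_, rfl⟩)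
        exact h4.ne_zero ⟨0, by omega⟩ (lindemann h6 (h3 _))
      refine le_trans ?_ (add_le_add h5 le_rfl)
      exact_mod_cast (by omega : 0 + b ≤ 1 + (0 + b - 1))
    exact h1
  · exact (GE_lw a b).err (by omega)

/-- **The theorem** -/
theorem result :
    -- the exact dimension
    (∀ (m : ℕ) (P : Fin m → ℂ), AlgebraicIndependent ℚ P → ∀ a b r k : ℕ,
      dimH (Tup P a b r k) = ((2 * level P a b r k : ℕ) : ℝ≥0∞) ∧
      ((Tup P a b r k).Nonempty → 0 < μH[((2 * level P a b r k : ℕ) : ℝ)] (Tup P a b r k)) ∧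
      (∃ A : ℕ → Set (Fin (a + b) → ℂ), Tup P a b r k ⊆ ⋃ i, A i ∧
        ∀ i, μH[((2 * level P a b r k : ℕ) : ℝ)] (A i) < ⊤) ∧
      ((Tup P a b r k).Countable ↔ level P a b r k = 0)) ∧
    -- the threshold
    (∀ (m : ℕ) (P : Fin m → ℂ), AlgebraicIndependent ℚ P → ∀ a b r k c : ℕ, 1 ≤ r → k + c + 1 = a + b + r →
      ((dimH (Tup P a b r k) ≤ ((2 * (r - 1) : ℕ) : ℝ≥0∞)) ↔
        ∀ i j, i ≤ a → j ≤ b → i + j = r → Gelfond P c (a - i) (b - j))) ∧
    -- the exact value
    (∀ (m : ℕ) (P : Fin m → ℂ), AlgebraicIndependent ℚ P → ∀ a b r k : ℕ, 1 ≤ r → r ≤ a + b →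
      k + 1 = a + b + r →
      ((∀ i j, i ≤ a → j ≤ b → i + j = r → Gelfond P 0 (a - i) (b - j)) →
        dimH (Tup P a b r k) = ((2 * (r - 1) : ℕ) : ℝ≥0∞)) ∧
      (¬ (∀ i j, i ≤ a → j ≤ b → i + j = r → Gelfond P 0 (a - i) (b - j)) →
        dimH (Tup P a b r k) = ((2 * r : ℕ) : ℝ≥0∞))) ∧
    -- the conjecture
    (∀ r : ℕ, 1 ≤ r → (GelfondConjecture ↔
      ∀ n, dimH (Tup (![] : Fin 0 → ℂ) n n r (2 * n + r - 1)) ≤ ((2 * (r - 1) : ℕ) : ℝ≥0∞))) ∧
    (GelfondConjecture ↔ ∀ n, (Tup (![] : Fin 0 → ℂ) n n 1 (2 * n)).Countable) ∧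
    -- fixed exponentials
    (∀ (m : ℕ) (α : Fin m → ℂ), (∀ i, IsAlgebraic ℚ (α i)) → LinearIndependent ℚ α → ∀ b : ℕ,
      (∀ l : Fin b → ℂ, (∀ j, IsAlgebraic ℚ (Complex.exp (l j))) → LinearIndependent ℚ l →
        AlgebraicIndependent (integralClosure ℚ ℂ) (Sum.elim (fun i => Complex.exp (α i)) l)) ↔
      (Tup (fun i => Complex.exp (α i)) 0 (b + 1) 1 (b + 1)).Countable) ∧
    -- unconditional cases
    (∀ a b r : ℕ, 1 ≤ r → r < a + b →
      dimH (Tup (![] : Fin 0 → ℂ) a b r (max (2 * r) (a + r - 1))) ≤ ((2 * (r - 1) : ℕ) : ℝ≥0∞)) ∧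
    (∀ a r : ℕ, 1 ≤ r → r ≤ a →
      dimH (Tup (![] : Fin 0 → ℂ) a 0 r (a + r - 1)) = ((2 * (r - 1) : ℕ) : ℝ≥0∞)) := by
  refine ⟨fun m P hP a b r k => formula hP a b r k, fun m P hP a b r k c hr hk => threshold hP hr hk,
    fun m P hP a b r k hr hab hk => exact_dim hP hr hab hk, fun r hr => conj_dim hr, ?_, ?_, ?_, ?_⟩
  · rw [conj_dim le_rfl]
    refine forall_congr' fun n => ?_
    have h1 : 2 * n + 1 - 1 = 2 * n := by omega
    rw [h1, (formula noPar n n 1 (2 * n)).2.2.2, (formula noPar n n 1 (2 * n)).1, Nat.cast_le]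
    omega
  · intro m α h1 h2 b
    have hP : AlgebraicIndependent ℚ fun i => Complex.exp (α i) := Pool.Agent.H327R2.SC.lw_algInd α h1 h2
    have h3 := threshold hP (a := 0) (b := b + 1) (r := 1) (k := b + 1) (c := 0) le_rfl (by omega)
    rw [(formula hP 0 (b + 1) 1 (b + 1)).1, Nat.cast_le] at h3
    rw [(formula hP 0 (b + 1) 1 (b + 1)).2.2.2]
    have h4 : level (fun i => Complex.exp (α i)) 0 (b + 1) 1 (b + 1) = 0 ↔
        2 * level (fun i => Complex.exp (α i)) 0 (b + 1) 1 (b + 1) ≤ 2 * (1 - 1) := by omega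
    rw [h4, h3]
    rw [← gel_fixed]
    constructor
    · intro h i j hi hj hij
      obtain rfl : i = 0 := by omega
      obtain rfl : j = 1 := by omega
      exact h
    · intro h
      exact h 0 1 le_rfl (by omega) rfl
  · intro a b r hr hab
    refine (threshold noPar hr (c := a + b + r - 1 - max (2 * r) (a + r - 1)) (by omega)).2 ?_
    intro i j hi hj hij
    rw [gel_bot]
    rcases le_total (2 * r) (a + r - 1) with h1 | h1
    · exact (GE_lw (a - i) (b - j)).err (by omega)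
    · exact (GE_min (a := a - i) (b := b - j) (by omega)).err (by omega)
  · intro a r hr hra
    refine (exact_dim noPar hr (by omega) (by omega)).1 ?_
    intro i j hi hj hij
    rw [gel_bot]
    exact (GE_lw (a - i) (0 - j)).err (by omega)

end Pool.Agent.Results.MP_c82530_nt.FieldOfDefinition
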