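import Mathlib
import Pool.Agent.H594.WI.Multi
import Pool.Agent.H594.KP.Dual
import Pool.Graph.R_seed8.H297R2.ExpIndep

/-!
# Gel'fond's conjecture for relations which are linear in logarithms, near the values of functions

Let `α_1, …, α_n` be algebraic numbers which are linearly independent over `ℚ`, and let
`f_j = A_j / B_j`, `1 ≤ j ≤ k`, be rational functions with algebraic coefficients, with simple zeros
and poles only, no two of them with a common zero or pole, each of them with at least `N` zeros and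
poles in `ℂ`. Gel'fond's conjecture says that `e^(α_1), …, e^(α_n)` and logarithms of multiplicatively
independent algebraic numbers are algebraically independent. We show that for all but finitely many
algebraic numbers `z` of degree at most `d` over a number field the following holds for ALL algebraic
numbers `δ_j ≠ 0` (of any degree) with `h(δ_j) ≤ κ h(z)`, `κ < (N - 2 d) / 2`, and for all logarithms
`l_j` of `δ_j f_j(z)`: every relation

  `P_0(e^α) + P_1(e^α) l_1 + ⋯ + P_k(e^α) l_k + P(e^α) λ = 0`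

with polynomials `P_j`, `P` of degree at most `D` in each variable with algebraic coefficients, and
with ANY linear form `λ`, with algebraic coefficients, in `1` and logarithms of algebraic numbers
(no condition on these) is trivial: the `P_j`, `j ≥ 1`, are multiples of `P` by algebraic numbers.
In particular there is no nontrivial relation which is linear in `l_1, …, l_k` (`P = 0`), and a
relation with `k + 1` logarithms, of which the last one is arbitrary, is trivial. The exceptional set depends on `D`, but not on the coefficients of the relation. For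
algebraic integers `z` one can take `κ < (N - 2 d + 1) / 2`. For one function `f` of degree `M`, with
zeros and poles on the projective line of multiplicity at most `m` and `m'`, one can take
`κ < M - 2 d m m' / (m + m')`, and for a polynomial and algebraic integers `κ < M - (2 d - 1) m`; for
instance, if `κ < k - 1` and `n` is large, then `e^(α_1), …, e^(α_n)` and
`log (δ n (n + 1) ⋯ (n + k - 1))` satisfy no relation of degree one in the logarithm, `h(δ) ≤ κ log n`.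

By the theorem of Waldschmidt and Roy on points of hyperplanes with coordinates in the space of
linear forms in logarithms (starting files `Pool.Agent.W254.HP`) the exceptional `δ_j f_j(z)` are
multiplicatively dependent modulo a group of finite rank which depends only on `α` and `D`. The places
at which its elements are not units are treated with Wirsing's theorem (a theorem of the library).
-/

set_option autoImplicit false

namespace Pool.Agent.Results.MP_c82530_nt.LinearRelationsNearValues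

open Pool.Agent.H594.ML
open Pool.Agent.H594.KP (free_main)
open Pool.Agent.H594.BD (degLe_alg)
open Pool.Agent.Helper259.AbsHt (Qbar)
open Pool.Agent.Y215.SK (DivHull h1)

/-- The absolute logarithmic height of an algebraic number `z`. (The image of the embedding `sg` of
an algebraic closure of `ℚ` consists of the algebraic numbers, and `h1 a` is the absolute
logarithmic height of `a`; for transcendental `z` the value has no meaning. See part (0) of the
theorem.) -/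
noncomputable def ht (z : ℂ) : ℝ := h1 (Function.invFun sg z)

/-- The linear combinations, with algebraic coefficients, of `1` and of logarithms of algebraic
numbers. -/
noncomputable def LogForms : Submodule (algebraicClosure ℚ ℂ) ℂ :=
  Submodule.span (algebraicClosure ℚ ℂ) ({1} ∪ {z : ℂ | IsAlgebraic ℚ (Complex.exp z)})

/-- All relations `P_0(t) + Q_1(t) l_1 + ⋯ + Q_k(t) l_k + P(t) λ = 0` with polynomials over the
algebraic numbers of degree at most `D` in each variable, `t = (e^(α_1), …, e^(α_n))`, `l_j` any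
logarithm of `c_j` and `λ` in `LogForms` are trivial: the `Q_j` are multiples of `P` by algebraic
numbers. -/
def OnlyTrivial {n k : ℕ} (α : Fin n → ℂ) (D : ℕ) (c : Fin k → ℂ) : Prop :=
  ∀ l : Fin k → ℂ, (∀ j, Complex.exp (l j) = c j) →
    ∀ (P₀ P : MvPolynomial (Fin n) (algebraicClosure ℚ ℂ))
      (Q : Fin k → MvPolynomial (Fin n) (algebraicClosure ℚ ℂ)),
      (∀ i, P₀.degreeOf i ≤ D) → (∀ i, P.degreeOf i ≤ D) → (∀ j i, (Q j).degreeOf i ≤ D) →
      ∀ lam ∈ LogForms,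
        MvPolynomial.aeval (fun i => Complex.exp (α i)) P₀ +
          ∑ j, MvPolynomial.aeval (fun i => Complex.exp (α i)) (Q j) * l j +
          MvPolynomial.aeval (fun i => Complex.exp (α i)) P * lam = 0 →
        ∀ j, ∃ b : algebraicClosure ℚ ℂ, Q j = MvPolynomial.C b * P

/-- the polynomials all of whose coefficients are algebraic numbers, not zero -/
def AlgPoly : Set (Polynomial ℂ) := {P | P ≠ 0 ∧ ∀ i, IsAlgebraic ℚ (P.coeff i)}

/-- the algebraic numbers of degree at most `d` over `K` -/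
def DegLe (K : IntermediateField ℚ ℂ) (d : ℕ) : Set ℂ :=
  {z | ∃ P : Polynomial ℂ, P ≠ 0 ∧ P.natDegree ≤ d ∧ (∀ i, P.coeff i ∈ K) ∧ P.eval z = 0}

/-- All zeros of `A / B` (`A`, `B` without common zeros) on the projective line have multiplicity at
most `m`. (The order of the zero at infinity is the difference of the degrees.) -/
def ZerosLe (A B : Polynomial ℂ) (m : ℕ) : Prop :=
  (∀ a, A.rootMultiplicity a ≤ m) ∧ B.natDegree - A.natDegree ≤ m

/-- The zeros of the `A_j` and `B_j` are simple and different from each other. -/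
def Separate {k : ℕ} (A B : Fin k → Polynomial ℂ) : Prop :=
  ∀ a, ∑ j, ((A j).rootMultiplicity a + (B j).rootMultiplicity a) ≤ 1

theorem ht_sg (y : Qbar) : ht (sg y) = h1 y := by
  unfold ht
  rw [Function.leftInverse_invFun sg_inj y]

theorem ht_nonneg (z : ℂ) : 0 ≤ ht z := Pool.Agent.Y215.SK.h1_nonneg _

theorem ht_eq (z : ℂ) : ht z = Pool.Agent.H594.WI.ht z := rfl

/-- the height in terms of Mathlib's height of the elements of number fields -/
theorem ht_field (L : Type) [Field L] [NumberField L] (φ : L →+* ℂ) (y : L) :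
    ht (φ y) = Height.logHeight₁ y / Module.finrank ℚ L := by
  have halg : ∀ x : L, IsAlgebraic ℚ (φ x) := by
    intro x
    have h1 : IsAlgebraic ℚ x := Algebra.IsAlgebraic.isAlgebraic x
    exact h1.algHom φ.toRatAlgHom
  choose f hf using fun x => exists_sg (halg x)
  let ψ : L →+* Qbar :=
    { toFun := f
      map_one' := sg_inj (by rw [hf, map_one, map_one])
      map_mul' := fun x y => sg_inj (by rw [hf, map_mul, map_mul, hf, hf])
      map_zero' := sg_inj (by rw [hf, map_zero, map_zero])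
      map_add' := fun x y => sg_inj (by rw [hf, map_add, map_add, hf, hf]) }
  have h1 : φ y = sg (ψ y) := (hf y).symm
  rw [h1, ht_sg, Pool.Agent.Y215.SK.h1_eq L ψ y]

theorem ht_rat (q : ℚ) : ht (q : ℂ) = Height.logHeight₁ q := by
  have h := ht_field ℚ (algebraMap ℚ ℂ) q
  rw [Module.finrank_self, Nat.cast_one, div_one] at h
  exact h

theorem ht_nat {n : ℕ} (hn : n ≠ 0) : ht (n : ℂ) = Real.log n := by
  have h := ht_rat n
  have : NeZero n := ⟨hn⟩
  rw [Rat.logHeight₁_natCast n] at h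
  exact_mod_cast h

/-- sufficiently general numbers have only trivial relations -/
theorem trivial_of {n : ℕ} (α : Fin n → ℂ) (hα : ∀ i, IsAlgebraic ℚ (α i))
    (hli : LinearIndependent ℚ α) (D : ℕ) :
    ∃ Γ : Subgroup Qbarˣ, Γ.FG ∧ ∀ (k : ℕ) (c : Fin k → ℂ), (∀ j, IsAlgebraic ℚ (c j)) →
      ¬ OnlyTrivial α D c → ∃ m : Fin k → ℤ, m ≠ 0 ∧ ∃ u ∈ DivHull Γ, ∏ j, c j ^ m j = sg u := by
  have hrel : ∀ P : MvPolynomial (Fin n) (algebraicClosure ℚ ℂ),
      MvPolynomial.aeval (fun i => Complex.exp (α i)) P = 0 → P = 0 := fun P hP =>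
    Pool.Agent.H297R2.exp_noRel P.totalDegree α hα hli P le_rfl hP
  let t : Fin n → ℂ := fun i => Complex.exp (α i)
  let X : Submodule (algebraicClosure ℚ ℂ) ℂ := Pool.Agent.W254.HP.boxV t (D + 1)
  have hX : X.FG := Submodule.fg_span (Set.finite_range _)
  have hmem : ∀ P : MvPolynomial (Fin n) (algebraicClosure ℚ ℂ), (∀ i, P.degreeOf i ≤ D) →
      MvPolynomial.aeval t P ∈ X := fun P hP => Pool.Agent.HP778.aeval_mem_box t D P hP
  obtain ⟨Γ, hΓ, hmain⟩ := free_main X hX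
  refine ⟨Γ, hΓ, fun k c hc hno => ?_⟩
  by_contra hind
  push Not at hind
  apply hno
  intro l hl P₀ P Q hP₀ hP hQ lam hlam he j
  have hY : Submodule.span (algebraicClosure ℚ ℂ) {MvPolynomial.aeval t P} ≤ X := by
    rw [Submodule.span_singleton_le_iff_mem]
    exact hmem P hP
  have h1 := hmain k c hc (fun m hm => fun ⟨u, hu, e⟩ => hind m hm u hu e) l hl _ hY
    (MvPolynomial.aeval t P₀) (hmem P₀ hP₀) (fun j => MvPolynomial.aeval t (Q j))
    (fun j => hmem (Q j) (hQ j)) (by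
      have h3 := Submodule.mul_mem_mul (Submodule.mem_span_singleton_self
        (R := algebraicClosure ℚ ℂ) (MvPolynomial.aeval t P)) (LogForms.neg_mem hlam)
      have h4 : MvPolynomial.aeval t P₀ + ∑ j, MvPolynomial.aeval t (Q j) * l j =
          MvPolynomial.aeval t P * (-lam) := by
        have he' : MvPolynomial.aeval t P₀ + ∑ j, MvPolynomial.aeval t (Q j) * l j +
          MvPolynomial.aeval t P * lam = 0 := he
        linear_combination he'
      rw [h4]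
      exact h3) j
  obtain ⟨b, hb⟩ := Submodule.mem_span_singleton.1 h1
  refine ⟨b, ?_⟩
  have h5 : MvPolynomial.aeval t (Q j - MvPolynomial.C b * P) = 0 := by
    rw [map_sub, map_mul, MvPolynomial.aeval_C, ← Algebra.smul_def, hb, sub_self]
  exact sub_eq_zero.1 (hrel _ h5)

theorem eval_alg {P : Polynomial ℂ} (hP : ∀ i, IsAlgebraic ℚ (P.coeff i)) {z : ℂ}
    (hz : IsAlgebraic ℚ z) : IsAlgebraic ℚ (P.eval z) := by
  rw [Polynomial.eval_eq_sum_range]
  exact Finset.sum_induction _ (IsAlgebraic ℚ) (fun a b ha hb => ha.add hb) isAlgebraic_zero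
    fun i _ => (hP i).mul (hz.pow i)

theorem value_alg {A B : Polynomial ℂ} (hA : A ∈ AlgPoly) (hB : B ∈ AlgPoly) {z δ : ℂ}
    (hz : IsAlgebraic ℚ z) (hδ : IsAlgebraic ℚ δ) : IsAlgebraic ℚ (δ * (A.eval z / B.eval z)) := by
  refine hδ.mul ?_
  rw [div_eq_mul_inv]
  exact (eval_alg hA.2 hz).mul (eval_alg hB.2 hz).inv

/-- several functions -/
theorem values_multi {n : ℕ} (α : Fin n → ℂ) (hα : ∀ i, IsAlgebraic ℚ (α i))
    (hli : LinearIndependent ℚ α) (D : ℕ)
    (K : IntermediateField ℚ ℂ) [FiniteDimensional ℚ K] (d : ℕ) (hd : 1 ≤ d) {k : ℕ}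
    (A B : Fin k → Polynomial ℂ) (hA : ∀ j, A j ∈ AlgPoly) (hB : ∀ j, B j ∈ AlgPoly)
    (hAB : Separate A B) (N : ℕ) (hN : ∀ j, N ≤ (A j).natDegree + (B j).natDegree) (ε : ℝ)
    (hε : 0 < ε) :
    ∃ C : ℝ, ∀ z ∈ DegLe K d, (∀ j, (A j).eval z ≠ 0 ∧ (B j).eval z ≠ 0) → ∀ δ : Fin k → ℂ,
      (∀ j, IsAlgebraic ℚ (δ j)) → ∀ H : ℝ, (∀ j, ht (δ j) ≤ H) →
      ¬ OnlyTrivial α D (fun j => δ j * ((A j).eval z / (B j).eval z)) →
      (((N : ℝ) - 2 * d) / 2 - ε) * ht z - C ≤ H ∧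
      (IsIntegral ℤ z → (((N : ℝ) - (2 * d - 1)) / 2 - ε) * ht z - C ≤ H) := by
  obtain ⟨Γ, hΓ, hexc⟩ := trivial_of α hα hli D
  obtain ⟨C, -, hC⟩ := Pool.Agent.H594.WI.sqf_height Γ hΓ K d hd A B (fun j => (hA j).2)
    (fun j => (hB j).2) (fun j => (hA j).1) (fun j => (hB j).1) hAB N hN ε hε
  refine ⟨C, fun z hz hAB δ hδ H hH hno => ?_⟩
  have hz' : IsAlgebraic ℚ z := degLe_alg (K := K) (d := d) hz
  obtain ⟨m, hm, u, hu, he⟩ := hexc k _ (fun j => value_alg (hA j) (hB j) hz' (hδ j)) hno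
  exact hC z hz (fun j => (hAB j).1) (fun j => (hAB j).2) m hm u hu δ hδ H hH he

/-- a single exceptional number is in a group of finite rank -/
theorem one_hull {n : ℕ} (α : Fin n → ℂ) (hα : ∀ i, IsAlgebraic ℚ (α i))
    (hli : LinearIndependent ℚ α) (D : ℕ) :
    ∃ Γ : Subgroup Qbarˣ, Γ.FG ∧ ∀ a : ℂ, IsAlgebraic ℚ a → a ≠ 0 →
      ¬ OnlyTrivial α D (fun _ : Fin 1 => a) → ∃ u ∈ DivHull Γ, a = sg (u : Qbarˣ) := by
  obtain ⟨Γ, hΓ, hexc⟩ := trivial_of α hα hli D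
  refine ⟨Γ, hΓ, fun a ha ha0 hno => ?_⟩
  obtain ⟨u, hu⟩ := exists_unit ha ha0
  obtain ⟨m, hm, v, hv, he⟩ := hexc 1 _ (fun _ => ha) hno
  have hm0 : m 0 ≠ 0 := by
    intro h0
    apply hm
    funext i
    rw [Subsingleton.elim i 0, h0]
    rfl
  rw [Fin.prod_univ_one] at he
  have h1 : u ^ (m 0) = v := by
    apply sgu_inj
    rw [Units.val_zpow_eq_zpow_val, map_zpow₀, ← hu]
    exact he
  refine ⟨u, ?_, hu⟩
  obtain ⟨r, hr, hvr⟩ := hv
  rw [← h1, ← zpow_natCast, ← zpow_mul] at hvr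
  refine ⟨(m 0 * r).natAbs, Int.natAbs_pos.2 (mul_ne_zero hm0 (by exact_mod_cast hr.ne')), ?_⟩
  rcases Int.natAbs_eq (m 0 * r) with h | h
  · rw [h, zpow_natCast] at hvr
    exact hvr
  · rw [h, zpow_neg, zpow_natCast] at hvr
    exact (Subgroup.inv_mem_iff Γ).1 hvr

/-- from height inequalities to finiteness -/
theorem finite_of (K : IntermediateField ℚ ℂ) [FiniteDimensional ℚ K] (d : ℕ) (c κ C : ℝ)
    (h : κ < c) (S : Set ℂ) (hS : ∀ z ∈ S, z ∈ DegLe K d ∧ ∃ x : ℝ, c * ht z - C ≤ x ∧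
      x ≤ κ * ht z) : S.Finite := by
  refine (Pool.Agent.H594.WI.northcott_cx K d (C / (c - κ))).subset ?_
  intro z hz
  obtain ⟨h1, x, h2, h3⟩ := hS z hz
  refine ⟨h1, ?_⟩
  have h4 : 0 < c - κ := sub_pos.2 h
  rw [← ht_eq, le_div_iff₀ h4]
  linarith

/-- several functions, finiteness -/
theorem finite_multi {n : ℕ} (α : Fin n → ℂ) (hα : ∀ i, IsAlgebraic ℚ (α i))
    (hli : LinearIndependent ℚ α) (D : ℕ)
    (K : IntermediateField ℚ ℂ) [FiniteDimensional ℚ K] (d : ℕ) (hd : 1 ≤ d) {k : ℕ}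
    (A B : Fin k → Polynomial ℂ) (hA : ∀ j, A j ∈ AlgPoly) (hB : ∀ j, B j ∈ AlgPoly)
    (hAB : Separate A B) (N : ℕ) (hN : ∀ j, N ≤ (A j).natDegree + (B j).natDegree) (κ : ℝ) :
    {z : ℂ | z ∈ DegLe K d ∧ (κ < ((N : ℝ) - 2 * d) / 2 ∨
        (IsIntegral ℤ z ∧ κ < ((N : ℝ) - (2 * d - 1)) / 2)) ∧
      (∀ j, (A j).eval z ≠ 0 ∧ (B j).eval z ≠ 0) ∧ ∃ δ : Fin k → ℂ,
      (∀ j, IsAlgebraic ℚ (δ j) ∧ δ j ≠ 0 ∧ ht (δ j) ≤ κ * ht z) ∧
      ¬ OnlyTrivial α D (fun j => δ j * ((A j).eval z / (B j).eval z))}.Finite := by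
  have main : ∀ (P : ℂ → Prop) (T : ℝ), κ < ((N : ℝ) - T) / 2 → (∀ ε : ℝ, 0 < ε → ∃ C : ℝ,
      ∀ z ∈ DegLe K d, (∀ j, (A j).eval z ≠ 0 ∧ (B j).eval z ≠ 0) → ∀ δ : Fin k → ℂ,
      (∀ j, IsAlgebraic ℚ (δ j)) → ∀ H : ℝ, (∀ j, ht (δ j) ≤ H) →
      ¬ OnlyTrivial α D (fun j => δ j * ((A j).eval z / (B j).eval z)) → P z →
      (((N : ℝ) - T) / 2 - ε) * ht z - C ≤ H) →
      {z : ℂ | z ∈ DegLe K d ∧ P z ∧
      (∀ j, (A j).eval z ≠ 0 ∧ (B j).eval z ≠ 0) ∧ ∃ δ : Fin k → ℂ,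
      (∀ j, IsAlgebraic ℚ (δ j) ∧ δ j ≠ 0 ∧ ht (δ j) ≤ κ * ht z) ∧
      ¬ OnlyTrivial α D (fun j => δ j * ((A j).eval z / (B j).eval z))}.Finite := by
    intro P T hT h
    obtain ⟨C, hC⟩ := h ((((N : ℝ) - T) / 2 - κ) / 2) (by linarith)
    refine finite_of K d (((N : ℝ) - T) / 2 - (((N : ℝ) - T) / 2 - κ) / 2) κ C (by linarith) _ ?_
    rintro z ⟨hz, hP, hne, δ, hδ, hno⟩
    exact ⟨hz, κ * ht z, hC z hz hne δ (fun j => (hδ j).1) _ (fun j => (hδ j).2.2) hno hP, le_rfl⟩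
  by_cases h1 : κ < ((N : ℝ) - 2 * d) / 2
  · refine (main (fun _ => True) (2 * d) h1 (fun ε hε => ?_)).subset
      fun z ⟨hz, _, h⟩ => ⟨hz, trivial, h⟩
    obtain ⟨C, hC⟩ := values_multi α hα hli D K d hd A B hA hB hAB N hN ε hε
    exact ⟨C, fun z hz hne δ hδ H hH hno _ => (hC z hz hne δ hδ H hH hno).1⟩
  · by_cases h2 : κ < ((N : ℝ) - (2 * d - 1)) / 2
    · refine (main (fun z => IsIntegral ℤ z) (2 * d - 1) h2 (fun ε hε => ?_)).subset ?_
      · obtain ⟨C, hC⟩ := values_multi α hα hli D K d hd A B hA hB hAB N hN ε hε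
        exact ⟨C, fun z hz hne δ hδ H hH hno hi => (hC z hz hne δ hδ H hH hno).2 hi⟩
      · rintro z ⟨hz, h3, h⟩
        exact ⟨hz, (h3.resolve_left h1).1, h⟩
    · refine Set.Finite.subset Set.finite_empty ?_
      rintro z ⟨hz, h3, h⟩
      rcases h3 with h3 | h3
      · exact absurd h3 h1
      · exact absurd h3.2 h2

/-- one function -/
theorem values_one {n : ℕ} (α : Fin n → ℂ) (hα : ∀ i, IsAlgebraic ℚ (α i))
    (hli : LinearIndependent ℚ α) (D : ℕ)
    (K : IntermediateField ℚ ℂ) [FiniteDimensional ℚ K] (d : ℕ) (hd : 1 ≤ d) (A B : Polynomial ℂ)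
    (hA : A ∈ AlgPoly) (hB : B ∈ AlgPoly) (hAB : IsCoprime A B) (m m' : ℕ) (hm0 : 1 ≤ m)
    (hm0' : 1 ≤ m') (hm : ZerosLe A B m) (hm' : ZerosLe B A m') (ε : ℝ) (hε : 0 < ε) :
    ∃ C : ℝ, ∀ z ∈ DegLe K d, A.eval z ≠ 0 → B.eval z ≠ 0 → ∀ δ : ℂ, IsAlgebraic ℚ δ → δ ≠ 0 →
      ¬ OnlyTrivial α D (fun _ : Fin 1 => δ * (A.eval z / B.eval z)) →
      (max (A.natDegree : ℝ) B.natDegree - 2 * d * (m * m' / (m + m')) - ε) * ht z - C ≤ ht δ := by
  obtain ⟨Γ, hΓ, hexc⟩ := one_hull α hα hli D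
  obtain ⟨C, -, hC⟩ := Pool.Agent.H594.WI.one_height Γ hΓ K d hd A B hA.2 hB.2 hA.1 hB.1 hAB m m'
    hm0 hm0' hm.1 hm.2 hm'.1 hm'.2 ε hε
  refine ⟨C, fun z hz hAz hBz δ hδ hδ0 hno => ?_⟩
  have hz' : IsAlgebraic ℚ z := degLe_alg (K := K) (d := d) hz
  obtain ⟨u, hu, he⟩ := hexc _ (value_alg hA hB hz' hδ) (mul_ne_zero hδ0 (div_ne_zero hAz hBz)) hno
  exact hC z hz hAz hBz u hu δ he

/-- one polynomial, algebraic integers -/
theorem values_int {n : ℕ} (α : Fin n → ℂ) (hα : ∀ i, IsAlgebraic ℚ (α i))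
    (hli : LinearIndependent ℚ α) (D : ℕ)
    (K : IntermediateField ℚ ℂ) [FiniteDimensional ℚ K] (d : ℕ) (hd : 1 ≤ d) (A : Polynomial ℂ)
    (hA : A ∈ AlgPoly) (m : ℕ) (hm0 : 1 ≤ m) (hm : ∀ a, A.rootMultiplicity a ≤ m) (ε : ℝ)
    (hε : 0 < ε) :
    ∃ C : ℝ, ∀ z ∈ DegLe K d, IsIntegral ℤ z → A.eval z ≠ 0 → ∀ δ : ℂ, IsAlgebraic ℚ δ → δ ≠ 0 →
      ¬ OnlyTrivial α D (fun _ : Fin 1 => δ * A.eval z) →
      (A.natDegree - (2 * d - 1) * m - ε) * ht z - C ≤ ht δ := by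
  obtain ⟨Γ, hΓ, hexc⟩ := one_hull α hα hli D
  obtain ⟨C, -, hC⟩ := Pool.Agent.H594.WI.poly_height Γ hΓ K d hd A hA.2 hA.1 m hm0 hm ε hε
  refine ⟨C, fun z hz hzi hAz δ hδ hδ0 hno => ?_⟩
  have hz' : IsAlgebraic ℚ z := degLe_alg (K := K) (d := d) hz
  obtain ⟨u, hu, he⟩ := hexc _ (hδ.mul (eval_alg hA.2 hz')) (mul_ne_zero hδ0 hAz) hno
  exact hC z hz hzi hAz u hu δ he

/-- the polynomial `X (X + 1) ⋯ (X + k - 1)` -/
noncomputable def rising (k : ℕ) : Polynomial ℂ :=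
  ∏ i ∈ Finset.range k, (Polynomial.X - Polynomial.C (-(i : ℂ)))

theorem rising_deg (k : ℕ) : (rising k).natDegree = k := by
  unfold rising
  rw [Polynomial.natDegree_prod_of_monic _ _ fun _ _ => Polynomial.monic_X_sub_C _]
  simp only [Polynomial.natDegree_X_sub_C, Finset.sum_const, Finset.card_range, smul_eq_mul,
    mul_one]

theorem rising_ne (k : ℕ) : rising k ≠ 0 :=
  (Polynomial.monic_prod_of_monic _ _ fun i _ => Polynomial.monic_X_sub_C _).ne_zero

theorem rising_mult (k : ℕ) (a : ℂ) : (rising k).rootMultiplicity a ≤ 1 := by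
  classical
  rw [← Polynomial.count_roots]
  have h1 : (rising k).roots = (Finset.range k).val.map (fun i : ℕ => -(i : ℂ)) := by
    unfold rising
    exact Polynomial.roots_multiset_prod_X_sub_C ((Finset.range k).val.map (fun i : ℕ => -(i : ℂ))) ▸ by
      rw [Multiset.map_map]
      rfl
  rw [h1]
  refine Multiset.nodup_iff_count_le_one.1 ?_ a
  refine (Finset.range k).nodup.map ?_
  intro i j hij
  exact Nat.cast_injective (neg_injective hij)

theorem rising_eval (k : ℕ) (x : ℂ) : (rising k).eval x = ∏ i ∈ Finset.range k, (x + i) := by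
  unfold rising
  rw [Polynomial.eval_prod]
  refine Finset.prod_congr rfl fun i _ => ?_
  simp

theorem rising_alg (k : ℕ) : rising k ∈ AlgPoly := by
  refine ⟨rising_ne k, fun i => ?_⟩
  have h1 : rising k = (∏ i ∈ Finset.range k, ((Polynomial.X : Polynomial ℚ) -
      Polynomial.C (-(i : ℚ)))).map (algebraMap ℚ ℂ) := by
    unfold rising
    rw [Polynomial.map_prod]
    refine Finset.prod_congr rfl fun i _ => ?_
    simp
  rw [h1, Polynomial.coeff_map]
  exact isAlgebraic_algebraMap _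

theorem alg_of_complex {x : ℝ} (h : IsAlgebraic ℚ (x : ℂ)) : IsAlgebraic ℚ x :=
  (isAlgebraic_algebraMap_iff (A := ℂ) Complex.ofReal_injective).1 h

theorem nat_deg (n : ℕ) : (n : ℂ) ∈ DegLe ⊥ 1 := by
  refine ⟨Polynomial.X - Polynomial.C (n : ℂ), Polynomial.X_sub_C_ne_zero _, ?_, fun i => ?_, ?_⟩
  · rw [Polynomial.natDegree_X_sub_C]
  · rw [Polynomial.coeff_sub, Polynomial.coeff_X, Polynomial.coeff_C]
    refine IntermediateField.sub_mem _ ?_ ?_
    · split_ifs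
      · exact IntermediateField.one_mem _
      · exact IntermediateField.zero_mem _
    · split_ifs
      · exact natCast_mem _ n
      · exact IntermediateField.zero_mem _
  · simp

/-- products of consecutive integers -/
theorem consecutive {n : ℕ} (α : Fin n → ℂ) (hα : ∀ i, IsAlgebraic ℚ (α i))
    (hli : LinearIndependent ℚ α) (D k : ℕ) (κ : ℝ) (hκ : κ < k - 1) :
    ∃ N : ℕ, ∀ q : ℕ, N ≤ q → ∀ δ : ℂ, IsAlgebraic ℚ δ → δ ≠ 0 → ht δ ≤ κ * Real.log q →
      OnlyTrivial α D (fun _ : Fin 1 => δ * ∏ i ∈ Finset.range k, ((q : ℂ) + i)) := by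
  have hfin : {z : ℂ | z ∈ DegLe ⊥ 1 ∧ IsIntegral ℤ z ∧ (rising k).eval z ≠ 0 ∧ ∃ δ : ℂ,
      IsAlgebraic ℚ δ ∧ δ ≠ 0 ∧ ht δ ≤ κ * ht z ∧
      ¬ OnlyTrivial α D (fun _ : Fin 1 => δ * (rising k).eval z)}.Finite := by
    obtain ⟨C, hC⟩ := values_int α hα hli D ⊥ 1 le_rfl (rising k) (rising_alg k) 1
      le_rfl (rising_mult k) (((k : ℝ) - 1 - κ) / 2) (by linarith)
    refine finite_of ⊥ 1 ((k : ℝ) - 1 - ((k : ℝ) - 1 - κ) / 2) κ C (by linarith) _ ?_
    rintro z ⟨hz, hzi, hAz, δ, hδ, hδ0, hle, hno⟩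
    refine ⟨hz, ht δ, ?_, hle⟩
    have h1 := hC z hz hzi hAz δ hδ hδ0 hno
    rw [rising_deg] at h1
    refine le_trans (le_of_eq ?_) h1
    push_cast
    ring
  have hfin2 := hfin.preimage (f := fun q : ℕ => (q : ℂ)) (fun a _ b _ h => Nat.cast_injective h)
  obtain ⟨N, hN⟩ := hfin2.bddAbove
  refine ⟨N + 1, fun q hq δ hδ hδ0 hle => ?_⟩
  have hq0 : (0 : ℝ) < q := by
    have : 0 < q := by omega
    exact_mod_cast this
  have hpos : 0 < ∏ i ∈ Finset.range k, ((q : ℝ) + i) :=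
    Finset.prod_pos fun i _ => by positivity
  have hev : (((∏ i ∈ Finset.range k, ((q : ℝ) + i)) : ℝ) : ℂ) = (rising k).eval (q : ℂ) := by
    rw [rising_eval]
    push_cast
    rfl
  rw [← rising_eval]
  by_contra hno
  have hmem : q ∈ (fun q : ℕ => (q : ℂ)) ⁻¹' {z : ℂ | z ∈ DegLe ⊥ 1 ∧ IsIntegral ℤ z ∧
      (rising k).eval z ≠ 0 ∧ ∃ δ : ℂ, IsAlgebraic ℚ δ ∧ δ ≠ 0 ∧ ht δ ≤ κ * ht z ∧
      ¬ OnlyTrivial α D (fun _ : Fin 1 => δ * (rising k).eval z)} := by
    refine ⟨nat_deg q, isIntegral_natCast q, ?_, δ, hδ, hδ0, ?_, hno⟩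
    · rw [← hev]
      exact Complex.ofReal_ne_zero.2 hpos.ne'
    · rw [ht_nat (by omega)]
      exact hle
  have h1 := hN hmem
  omega

/-- **Main result.** (0) `ht` is the absolute logarithmic height. (1) The height inequality for
several functions. (2), (3) The height inequalities for one function, and for one polynomial and
algebraic integers. (4) The finiteness which follows from (1). (5) Products of consecutive
integers. -/
theorem result :
    -- (0)
    (∀ (L : Type) [Field L] [NumberField L] (φ : L →+* ℂ) (y : L),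
      ht (φ y) = Height.logHeight₁ y / Module.finrank ℚ L) ∧
    ∀ (n : ℕ) (α : Fin n → ℂ), (∀ i, IsAlgebraic ℚ (α i)) → LinearIndependent ℚ α → ∀ D : ℕ,
    -- (1)
    (∀ K : IntermediateField ℚ ℂ,
      FiniteDimensional ℚ K → ∀ d : ℕ, 1 ≤ d → ∀ (k : ℕ) (A B : Fin k → Polynomial ℂ),
      (∀ j, A j ∈ AlgPoly) → (∀ j, B j ∈ AlgPoly) → Separate A B → ∀ N : ℕ,
      (∀ j, N ≤ (A j).natDegree + (B j).natDegree) → ∀ ε : ℝ, 0 < ε → ∃ C : ℝ,
      ∀ z ∈ DegLe K d, (∀ j, (A j).eval z ≠ 0 ∧ (B j).eval z ≠ 0) → ∀ δ : Fin k → ℂ,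
        (∀ j, IsAlgebraic ℚ (δ j)) → ∀ H : ℝ, (∀ j, ht (δ j) ≤ H) →
        ¬ OnlyTrivial α D (fun j => δ j * ((A j).eval z / (B j).eval z)) →
        (((N : ℝ) - 2 * d) / 2 - ε) * ht z - C ≤ H ∧
        (IsIntegral ℤ z → (((N : ℝ) - (2 * d - 1)) / 2 - ε) * ht z - C ≤ H)) ∧
    -- (2)
    (∀ K : IntermediateField ℚ ℂ,
      FiniteDimensional ℚ K → ∀ d : ℕ, 1 ≤ d → ∀ A ∈ AlgPoly, ∀ B ∈ AlgPoly, IsCoprime A B →
      ∀ m m' : ℕ, 1 ≤ m → 1 ≤ m' → ZerosLe A B m → ZerosLe B A m' → ∀ ε : ℝ, 0 < ε → ∃ C : ℝ,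
      ∀ z ∈ DegLe K d, A.eval z ≠ 0 → B.eval z ≠ 0 → ∀ δ : ℂ, IsAlgebraic ℚ δ → δ ≠ 0 →
        ¬ OnlyTrivial α D (fun _ : Fin 1 => δ * (A.eval z / B.eval z)) →
        (max (A.natDegree : ℝ) B.natDegree - 2 * d * (m * m' / (m + m')) - ε) * ht z - C ≤ ht δ) ∧
    -- (3)
    (∀ K : IntermediateField ℚ ℂ,
      FiniteDimensional ℚ K → ∀ d : ℕ, 1 ≤ d → ∀ A ∈ AlgPoly, ∀ m : ℕ, 1 ≤ m →
      (∀ a, A.rootMultiplicity a ≤ m) → ∀ ε : ℝ, 0 < ε → ∃ C : ℝ,
      ∀ z ∈ DegLe K d, IsIntegral ℤ z → A.eval z ≠ 0 → ∀ δ : ℂ, IsAlgebraic ℚ δ → δ ≠ 0 →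
        ¬ OnlyTrivial α D (fun _ : Fin 1 => δ * A.eval z) →
        (A.natDegree - (2 * d - 1) * m - ε) * ht z - C ≤ ht δ) ∧
    -- (4)
    (∀ K : IntermediateField ℚ ℂ,
      FiniteDimensional ℚ K → ∀ d : ℕ, 1 ≤ d → ∀ (k : ℕ) (A B : Fin k → Polynomial ℂ),
      (∀ j, A j ∈ AlgPoly) → (∀ j, B j ∈ AlgPoly) → Separate A B → ∀ N : ℕ,
      (∀ j, N ≤ (A j).natDegree + (B j).natDegree) → ∀ κ : ℝ,
      {z : ℂ | z ∈ DegLe K d ∧ (κ < ((N : ℝ) - 2 * d) / 2 ∨
          (IsIntegral ℤ z ∧ κ < ((N : ℝ) - (2 * d - 1)) / 2)) ∧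
        (∀ j, (A j).eval z ≠ 0 ∧ (B j).eval z ≠ 0) ∧ ∃ δ : Fin k → ℂ,
        (∀ j, IsAlgebraic ℚ (δ j) ∧ δ j ≠ 0 ∧ ht (δ j) ≤ κ * ht z) ∧
        ¬ OnlyTrivial α D (fun j => δ j * ((A j).eval z / (B j).eval z))}.Finite) ∧
    -- (5)
    (∀ (k : ℕ) (κ : ℝ), κ < k - 1 → ∃ N : ℕ, ∀ q : ℕ, N ≤ q → ∀ δ : ℂ, IsAlgebraic ℚ δ → δ ≠ 0 →
      ht δ ≤ κ * Real.log q →
      OnlyTrivial α D (fun _ : Fin 1 => δ * ∏ i ∈ Finset.range k, ((q : ℂ) + i))) := by
  refine ⟨fun L _ _ φ y => ht_field L φ y, fun n α hα hli D => ⟨?_, ?_, ?_, ?_,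
    fun k κ hκ => consecutive α hα hli D k κ hκ⟩⟩
  · intro K hK d hd k A B hA hB hAB N hN ε hε
    exact values_multi α hα hli D K d hd A B hA hB hAB N hN ε hε
  · intro K hK d hd A hA B hB hAB m m' hm0 hm0' hm hm' ε hε
    exact values_one α hα hli D K d hd A B hA hB hAB m m' hm0 hm0' hm hm' ε hε
  · intro K hK d hd A hA m hm0 hm ε hε
    exact values_int α hα hli D K d hd A hA m hm0 hm ε hε
  · intro K hK d hd k A B hA hB hAB N hN κ
    exact finite_multi α hα hli D K d hd A B hA hB hAB N hN κ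

end Pool.Agent.Results.MP_c82530_nt.LinearRelationsNearValues
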