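import Pool.Agent.H443.VD.Fib

/-!
# Algebraic relations between exponentials of algebraic numbers and tuples of logarithms: uniform bounds

Let `V` be an algebraic set in the affine space of dimension `r + m`, with coordinates `(x, y)`, which is defined over
the field `ℚ̄` of the algebraic numbers, and let `α_1, ..., α_r` be algebraic numbers which are linearly independent over
`ℚ`. We consider the points `(e ^ α_1, ..., e ^ α_r, y_1, ..., y_m)` of `V` such that all `y_i` are linear forms, with
coefficients in `k = ℚ` or `k = ℚ̄`, in `1` and logarithms of algebraic numbers. If Gel'fond's conjecture is true, then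
there is such a point only for a trivial reason: the fibre `V_x`, `x = e ^ α`, contains a translate `y + R_ℂ` of a linear
space `R` defined over `k` through an algebraic point. Let `r + d` be the dimension of `V` (so the fibre `V_x` has
dimension at most `d`, by the theorem of Lindemann and Weierstrass), let `ρ ≥ 0` and
`n = d (d + 1) + ρ max (N - d - 1, 0)`. We prove:

* Dimension. If `W` is a space of dimension `N` over `k` of linear forms in `1` and logarithms of algebraic numbers,
  then the `y ∈ W ^ m` with `(e ^ α, y) ∈ V` such that `V_x` contains no translate `y + R_ℂ` of a linear space `R` over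
  `k` of dimension greater than `ρ` lie in an algebraic subset of `W ^ m` of dimension at most `n`. For `ρ = 0` this is
  `d (d + 1)`.
* Counting. If `l_1, ..., l_N` are such linear forms which are linearly independent over `k`, then for every finite
  subset `S` of `k` there are at most `B |S| ^ n` matrices `A` with entries in `S` such that `(e ^ α, A l) ∈ V`, but
  `V_x` contains no translate `A l + R_ℂ` of a space `R` of dimension greater than `ρ`.
* Uniformity. The constant `B`, and the degrees of the polynomials which define the algebraic subset of `W ^ m`, depend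
  only on `r`, `m`, `N`, `d`, `ρ` and on the degrees of the equations of `V`. They are the same for all `r`-tuples `α`
  of linearly independent algebraic numbers, for all spaces `W` and logarithms `l_j`, and all coefficients of `V`.

Earlier results (`LinearSpacesThroughPoints`, `PointsOnComplexVarieties`) have the exponent `ρ N + (m - ρ) (m - 1)`
with the number `m` of the logarithmic coordinates, and constants which depend on `α`, on `V` and on the `l_j`.

Proof. The fibre over the point `e ^ α` of `V` is an algebraic set of dimension at most `d` and of bounded complexity, by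
the theorem of Lindemann and Weierstrass. The theorem `VarietiesOfGivenDimension` (`MP_60829e_nt`), which extends the
linear subgroup theorem to arbitrary varieties over `ℂ` and which is uniform in the variety, is applied to it.
-/

set_option autoImplicit false

namespace Pool.Agent.Results.MP_c82530_nt.VarietiesOverExponentials

open MvPolynomial

/-- The space of all linear combinations, with coefficients in `k`, of `1` and of logarithms of algebraic numbers. -/
noncomputable def LogForms (k : Type) [Field k] [Algebra k ℂ] : Submodule k ℂ :=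
  Submodule.span k ({1} ∪ {z : ℂ | IsAlgebraic ℚ (Complex.exp z)})

/-- The system of equations `F = 0`, `F ∈ 𝓕`, over the algebraic numbers, in the coordinates `x_1, ..., x_r`,
`y_1, ..., y_m`, has degree at most `δ` and defines an algebraic set of dimension at most `r + d`: on this set
`x_1, ..., x_r` and any `d + 1` of the `y_i` satisfy a nonzero relation, of degree at most `δ`, over `ℚ̄`. -/
def IsSystem {r m : ℕ} (d δ : ℕ) (𝓕 : Set (MvPolynomial (Fin r ⊕ Fin m) (algebraicClosure ℚ ℂ))) : Prop :=
  (∀ F ∈ 𝓕, F.totalDegree ≤ δ) ∧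
  ∀ e : Fin (d + 1) → Fin m, ∃ P : MvPolynomial (Fin r ⊕ Fin (d + 1)) (algebraicClosure ℚ ℂ),
    P ≠ 0 ∧ P.totalDegree ≤ δ ∧ ∀ (x : Fin r → ℂ) (y : Fin m → ℂ), (∀ F ∈ 𝓕, aeval (Sum.elim x y) F = 0) →
      aeval (Sum.elim x (fun a => y (e a))) P = 0

/-- The fibre over the point `(e ^ α_1, ..., e ^ α_r)`. -/
def fibre {r m : ℕ} (𝓕 : Set (MvPolynomial (Fin r ⊕ Fin m) (algebraicClosure ℚ ℂ))) (α : Fin r → ℂ) :
    Set (Fin m → ℂ) :=
  {y | ∀ F ∈ 𝓕, aeval (Sum.elim (fun i => Complex.exp (α i)) y) F = 0}

/-- `V` contains the translate `y + R_ℂ` of the complex span of the space `R` defined over `k`. -/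
def ContainsTranslate (k : Type) [Field k] [Algebra k ℂ] {m : ℕ} (V : Set (Fin m → ℂ)) (y : Fin m → ℂ)
    (R : Submodule k (Fin m → k)) : Prop :=
  ∀ c ∈ Submodule.span ℂ {x : Fin m → ℂ | ∃ v ∈ R, x = fun i => algebraMap k ℂ (v i)}, y + c ∈ V

/-- The set `Z` of `m`-tuples of elements of `W` lies in an algebraic subset of dimension at most `n`: any `n + 1`
linear forms satisfy a nonzero polynomial relation, of degree at most `B`, on `Z`. -/
def DimensionAtMost {k : Type} [Field k] [Algebra k ℂ] (W : Submodule k ℂ) {m : ℕ} (n B : ℕ)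
    (Z : Set (Fin m → W)) : Prop :=
  ∀ φ : Fin (n + 1) → ((Fin m → W) →ₗ[k] k),
    ∃ P : MvPolynomial (Fin (n + 1)) k, P ≠ 0 ∧ P.totalDegree ≤ B ∧ ∀ y ∈ Z, eval (fun a => φ a y) P = 0

/-- The point `A l`. -/
noncomputable def point {k : Type} [Field k] [Algebra k ℂ] {m N : ℕ} (l : Fin N → ℂ) (A : Fin m → Fin N → k) :
    Fin m → ℂ :=
  fun i => ∑ j, algebraMap k ℂ (A i j) * l j

/-- Dimension and counting over `k`, with one bound `B` for all systems `𝓕`, all `α`, `W`, `l` and `S`. -/
def UniformBound (k : Type) [Field k] [Algebra k ℂ] (r m N d δ ρ : ℕ) : Prop :=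
  ∃ B : ℕ, ∀ 𝓕 : Set (MvPolynomial (Fin r ⊕ Fin m) (algebraicClosure ℚ ℂ)), IsSystem d δ 𝓕 →
    ∀ α : Fin r → ℂ, (∀ i, IsAlgebraic ℚ (α i)) → LinearIndependent ℚ α →
    (∀ W : Submodule k ℂ, FiniteDimensional k W → Module.finrank k W = N → W ≤ LogForms k →
      DimensionAtMost W (d * (d + 1) + ρ * (N - (d + 1))) B
        {y : Fin m → W | (fun i => (y i : ℂ)) ∈ fibre 𝓕 α ∧ ∀ R : Submodule k (Fin m → k),
          ContainsTranslate k (fibre 𝓕 α) (fun i => (y i : ℂ)) R → Module.finrank k R ≤ ρ}) ∧
    ∀ l : Fin N → ℂ, (∀ j, l j ∈ LogForms k) → LinearIndependent k l → ∀ S : Finset k, S.Nonempty →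
      Set.ncard {A : Fin m → Fin N → k | (∀ i j, A i j ∈ S) ∧ point l A ∈ fibre 𝓕 α ∧
        ∀ R : Submodule k (Fin m → k), ContainsTranslate k (fibre 𝓕 α) (point l A) R → Module.finrank k R ≤ ρ} ≤
      B * S.card ^ (d * (d + 1) + ρ * (N - (d + 1)))

/-- **Main result.** -/
theorem result (r m N d δ ρ : ℕ) :
    UniformBound (algebraicClosure ℚ ℂ) r m N d δ ρ ∧ UniformBound ℚ r m N d δ ρ := by
  have key : ∀ (k : Type) [Field k] [CharZero k] [Algebra k ℂ], Pool.Agent.W254.PA.Hyp (LogForms k) →
      UniformBound k r m N d δ ρ := by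
    intro k _ _ _ hL
    obtain ⟨B₁, h1⟩ := Pool.Agent.H443.VD.unifV_dim hL m N d δ ρ
    obtain ⟨B₂, h2⟩ := Pool.Agent.H443.VD.unifV_count hL m N d δ ρ
    refine ⟨B₁ + B₂, fun 𝓕 h𝓕 α halg hα => ?_⟩
    have hV : Pool.Agent.H443.VD.IsVar d δ (fibre 𝓕 α) := by
      refine Pool.Agent.H443.VD.isVar_fibre _ (Pool.Agent.H443.VD.lw α halg hα) 𝓕 h𝓕.1 fun e => ?_
      obtain ⟨P, hP0, hPd, hP⟩ := h𝓕.2 e
      exact ⟨P, hP0, hPd, fun y hy => hP _ y hy⟩
    refine ⟨?_, ?_⟩
    · intro W hf hN hW φ
      obtain ⟨P, h3, h4, h5⟩ := h1 W hN hf hW _ hV φ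
      exact ⟨P, h3, h4.trans (Nat.le_add_right _ _), fun y hy => h5 y hy.1 hy.2⟩
    · intro l hl hli S hS
      exact (h2 l hl hli _ hV S hS).trans (Nat.mul_le_mul_right _ (Nat.le_add_left _ _))
  have hQ : Pool.Agent.W254.PA.Hyp (LogForms ℚ) := Pool.Agent.Y787.AS.hypQ_complex
  exact ⟨key _ (Pool.Agent.Y787.HypC.hyp (Lt := Pool.Agent.H301R2.SSE.Lt)), key ℚ hQ⟩

end Pool.Agent.Results.MP_c82530_nt.VarietiesOverExponentials
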